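import Pool.Agent.Helper5.MZ.INVB

/-!
# MP_79eb7e_lc, full answer: module IND (independent families)
-/

set_option autoImplicit false

namespace Pool.Agent.Helper90.MZ

open Pool.Agent.Helper90.TS

section ind

variable {V G : Type} [Group G] [MulAction G V] {X : Ctx V G} {A : Set V}

theorem ind_fin {κ : Type} {S : κ → Set V} {I : Set κ} {B : Set V} (hB : B.Finite)
    (h : B ⊆ ⋃ i ∈ I, S i) : ∃ I0 : Finset κ, (∀ i ∈ I0, i ∈ I) ∧ B ⊆ ⋃ i ∈ I0, S i := by
  classical
  have h1 : ∀ b : B, ∃ i, i ∈ I ∧ (b : V) ∈ S i := by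
    intro b
    have := h b.2
    simp only [Set.mem_iUnion] at this
    obtain ⟨i, hi, hb⟩ := this
    exact ⟨i, hi, hb⟩
  choose f hf using h1
  haveI := hB.fintype
  refine ⟨Finset.univ.image f, ?_, ?_⟩
  · intro i hi
    rw [Finset.mem_image] at hi
    obtain ⟨b, _, rfl⟩ := hi
    exact (hf b).1
  · intro b hb
    simp only [Set.mem_iUnion]
    exact ⟨f ⟨b, hb⟩, Finset.mem_image.2 ⟨⟨b, hb⟩, Finset.mem_univ _, rfl⟩, (hf ⟨b, hb⟩).2⟩

theorem ind_cnt {κ : Type} [Countable κ] {S : κ → Set V} (hS : ∀ i, (S i).Countable)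
    (I : Set κ) : (⋃ i ∈ I, S i).Countable := I.to_countable.biUnion fun i _ => hS i

theorem ind_mono {κ : Type} {S : κ → Set V} {I J : Set κ} (h : I ⊆ J) :
    (⋃ i ∈ I, S i) ⊆ ⋃ i ∈ J, S i := Set.biUnion_subset_biUnion_left h

/-- finite character, in terms of finite sets of indices -/
theorem ind_char {κ : Type} [Countable κ] {S : κ → Set V} (hA : A.Countable)
    (hS : ∀ i, (S i).Countable) (I J : Set κ)
    (h : ∀ I0 J0 : Finset κ, (∀ i ∈ I0, i ∈ I) → (∀ i ∈ J0, i ∈ J) →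
      SI X A (⋃ i ∈ I0, S i) (⋃ i ∈ J0, S i)) : SI X A (⋃ i ∈ I, S i) (⋃ i ∈ J, S i) := by
  refine si_finite hA (ind_cnt hS I) (ind_cnt hS J) ?_
  intro B0 C0 hB hC fB fC
  obtain ⟨I0, h1, h2⟩ := ind_fin fB hB
  obtain ⟨J0, h3, h4⟩ := ind_fin fC hC
  have hI0 : (⋃ i ∈ I0, S i).Countable := ind_cnt hS (I0 : Set κ)
  have hJ0 : (⋃ i ∈ J0, S i).Countable := ind_cnt hS (J0 : Set κ)
  exact si_right hA (hI0.mono h2) hJ0 h4 (si_left h2 (h I0 J0 h1 h3))

theorem ind_step {B C D : Set V} (hA : A.Countable) (hB : B.Countable) (hC : C.Countable)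
    (hD : D.Countable) (h1 : SI X A B C) (h2 : SI X A D (B ∪ C)) : SI X A (B ∪ D) C :=
  si_transl hA hB hC hD h1 ((si_union hA hD hB hC).1 h2).2

theorem ind_stepr {B C D : Set V} (hA : A.Countable) (hB : B.Countable) (hC : C.Countable)
    (hD : D.Countable) (h1 : SI X A B C) (h2 : SI X A D (B ∪ C)) : SI X A B (C ∪ D) := by
  refine si_symm hA (hC.union hD) hB (ind_step hA hC hB hD (si_symm hA hB hC h1) ?_)
  rwa [Set.union_comm C B]

theorem ind_nat {S : ℕ → Set V} (hA : A.Countable) (hS : ∀ i, (S i).Countable)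
    (h : ∀ i, SI X A (S i) (⋃ j ∈ {j | j < i}, S j)) : Ind X A S := by
  intro I J hIJ
  have key : ∀ n : ℕ, SI X A (⋃ i ∈ I ∩ {j | j < n}, S i) (⋃ i ∈ J ∩ {j | j < n}, S i) := by
    intro n
    induction n with
    | zero =>
      have : (⋃ i ∈ I ∩ {j | j < 0}, S i) = ∅ := by
        simp
      rw [this]
      exact si_empty_left
    | succ n ih =>
      have hsub : (⋃ i ∈ I ∩ {j | j < n}, S i) ∪ (⋃ i ∈ J ∩ {j | j < n}, S i) ⊆
          ⋃ j ∈ {j | j < n}, S j :=
        Set.union_subset (ind_mono Set.inter_subset_right) (ind_mono Set.inter_subset_right)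
      have hn : SI X A (S n) ((⋃ i ∈ I ∩ {j | j < n}, S i) ∪ (⋃ i ∈ J ∩ {j | j < n}, S i)) :=
        si_right hA (hS n) (ind_cnt hS _) hsub (h n)
      have e1 : ∀ K : Set ℕ, n ∈ K → (⋃ i ∈ K ∩ {j | j < n + 1}, S i) =
          (⋃ i ∈ K ∩ {j | j < n}, S i) ∪ S n := by
        intro K hK
        have : K ∩ {j | j < n + 1} = insert n (K ∩ {j | j < n}) := by
          ext j
          simp only [Set.mem_inter_iff, Set.mem_ofPred_eq, Set.mem_insert_iff]
          constructor
          · rintro ⟨h1, h2⟩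
            rcases Nat.lt_succ_iff_lt_or_eq.1 h2 with h3 | h3
            · exact Or.inr ⟨h1, h3⟩
            · exact Or.inl h3
          · rintro (h1 | ⟨h1, h2⟩)
            · subst h1
              exact ⟨hK, Nat.lt_succ_self _⟩
            · exact ⟨h1, Nat.lt_succ_of_lt h2⟩
        rw [this, Set.biUnion_insert, Set.union_comm]
      have e2 : ∀ K : Set ℕ, n ∉ K → (⋃ i ∈ K ∩ {j | j < n + 1}, S i) =
          (⋃ i ∈ K ∩ {j | j < n}, S i) := by
        intro K hK
        have : K ∩ {j | j < n + 1} = K ∩ {j | j < n} := by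
          ext j
          simp only [Set.mem_inter_iff, Set.mem_ofPred_eq]
          constructor
          · rintro ⟨h1, h2⟩
            rcases Nat.lt_succ_iff_lt_or_eq.1 h2 with h3 | h3
            · exact ⟨h1, h3⟩
            · subst h3
              exact absurd h1 hK
          · rintro ⟨h1, h2⟩
            exact ⟨h1, Nat.lt_succ_of_lt h2⟩
        rw [this]
      by_cases hI : n ∈ I
      · have hJ : n ∉ J := Set.disjoint_left.1 hIJ hI
        rw [e1 I hI, e2 J hJ]
        exact ind_step hA (ind_cnt hS _) (ind_cnt hS _) (hS n) ih hn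
      · rw [e2 I hI]
        by_cases hJ : n ∈ J
        · rw [e1 J hJ]
          exact ind_stepr hA (ind_cnt hS _) (ind_cnt hS _) (hS n) ih hn
        · rw [e2 J hJ]
          exact ih
  refine ind_char hA hS I J ?_
  intro I0 J0 h1 h2
  set n := (I0 ∪ J0).sup id + 1 with hn
  have hb : ∀ i ∈ I0 ∪ J0, i < n := by
    intro i hi
    have : i ≤ (I0 ∪ J0).sup id := Finset.le_sup (f := id) hi
    omega
  have h3 : (⋃ i ∈ I0, S i) ⊆ ⋃ i ∈ I ∩ {j | j < n}, S i :=
    ind_mono (I := (I0 : Set ℕ)) fun i hi =>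
      ⟨h1 i hi, hb i (Finset.mem_union_left _ hi)⟩
  have h4 : (⋃ i ∈ J0, S i) ⊆ ⋃ i ∈ J ∩ {j | j < n}, S i :=
    ind_mono (I := (J0 : Set ℕ)) fun i hi =>
      ⟨h2 i hi, hb i (Finset.mem_union_right _ hi)⟩
  exact si_right hA (ind_cnt hS (I0 : Set ℕ)) (ind_cnt hS _) h4 (si_left h3 (key n))

theorem ind_reindex {κ κ' : Type} (S : κ → Set V) (f : κ' → κ) (hf : Function.Injective f)
    (h : Ind X A S) : Ind X A (fun i => S (f i)) := by
  intro I J hIJ
  have := h (f '' I) (f '' J) ((Set.disjoint_image_iff hf).2 hIJ)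
  rwa [Set.biUnion_image, Set.biUnion_image] at this

theorem ind_nfin {m : ℕ} {S : Fin m → Set V} (hA : A.Countable) (hS : ∀ i, (S i).Countable)
    (h : ∀ i, SI X A (S i) (⋃ j ∈ {j | j < i}, S j)) : Ind X A S := by
  set S' : ℕ → Set V := fun i => if hi : i < m then S ⟨i, hi⟩ else ∅ with hS'
  have e : ∀ (i : ℕ) (hi : i < m), S' i = S ⟨i, hi⟩ := by
    intro i hi
    simp only [hS', hi, dif_pos]
  have h1 : Ind X A S' := by
    refine ind_nat hA ?_ ?_
    · intro i
      by_cases hi : i < m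
      · rw [e i hi]
        exact hS _
      · simp only [hS', hi, dif_neg, not_false_iff]
        exact Set.countable_empty
    · intro i
      by_cases hi : i < m
      · rw [e i hi]
        have h2 : (⋃ j ∈ {j | j < i}, S' j) = ⋃ j ∈ {j : Fin m | j < ⟨i, hi⟩}, S j := by
          ext x
          simp only [Set.mem_iUnion, Set.mem_ofPred_eq]
          constructor
          · rintro ⟨j, hj, hx⟩
            have hjm : j < m := lt_trans hj hi
            rw [e j hjm] at hx
            exact ⟨⟨j, hjm⟩, hj, hx⟩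
          · rintro ⟨j, hj, hx⟩
            refine ⟨j, hj, ?_⟩
            rwa [e j j.2]
        rw [h2]
        exact h ⟨i, hi⟩
      · simp only [hS', hi, dif_neg, not_false_iff]
        exact si_empty_left
  have h2 := ind_reindex S' (fun i : Fin m => (i : ℕ)) Fin.val_injective h1
  have e2 : (fun i : Fin m => S' (i : ℕ)) = S := by
    funext i
    exact e i i.2
  rwa [e2] at h2

theorem ind_base {κ : Type} [Countable κ] {S : κ → Set V} {Y : Set V} (hA : A.Countable)
    (hS : ∀ i, (S i).Countable) (hY : Y.Countable) (h : Ind X A S)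
    (h1 : SI X A (⋃ i, S i) Y) : Ind X (A ∪ Y) S := by
  intro I J hIJ
  have cI := ind_cnt hS I
  have cJ := ind_cnt hS J
  have h2 : SI X A ((⋃ i ∈ J, S i) ∪ (⋃ i ∈ I, S i)) Y := by
    refine si_left ?_ h1
    refine Set.union_subset ?_ ?_ <;>
    · refine Set.iUnion₂_subset fun i _ => Set.subset_iUnion _ i
  have h3 := ((si_unionl hA cJ hY cI).1 h2).2
  have h4 := si_trans hA cI cJ hY (h I J hIJ) h3
  rw [Set.union_comm] at h4
  exact ((si_union hA cI hY cJ).1 h4).2

theorem ind_finchar {κ : Type} [Countable κ] {S : κ → Set V} (hA : A.Countable)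
    (hS : ∀ i, (S i).Countable) (h : ∀ s : Finset κ, Ind X A (fun i : s => S i)) :
    Ind X A S := by
  classical
  intro I J hIJ
  refine ind_char hA hS I J ?_
  intro I0 J0 h1 h2
  have h3 := h (I0 ∪ J0) {i | (i : κ) ∈ I0} {i | (i : κ) ∈ J0} (by
    rw [Set.disjoint_left]
    intro i hi hj
    exact Set.disjoint_left.1 hIJ (h1 _ hi) (h2 _ hj))
  have e : ∀ K : Finset κ, K ⊆ I0 ∪ J0 →
      (⋃ i ∈ {i : (I0 ∪ J0 : Finset κ) | (i : κ) ∈ K}, S i) = ⋃ i ∈ K, S i := by
    intro K hK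
    ext x
    simp only [Set.mem_iUnion, Set.mem_ofPred_eq]
    constructor
    · rintro ⟨i, hi, hx⟩
      exact ⟨i, hi, hx⟩
    · rintro ⟨i, hi, hx⟩
      exact ⟨⟨i, hK hi⟩, hi, hx⟩
  rw [e I0 Finset.subset_union_left, e J0 Finset.subset_union_right] at h3
  exact h3

/-- replacement of one set -/
theorem ind_repl {κ : Type} [Countable κ] {S : κ → Set V} (hA : A.Countable)
    (hS : ∀ i, (S i).Countable) (h : Ind X A S) (a : κ) (T : Set V) (hT : T.Countable)
    (h1 : T ⊆ S a ∨ (S a ⊆ T ∧ ∀ Y : Set V, Y.Countable → SI X A Y (S a) → SI X A Y T))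
    (S' : κ → Set V) (ha : S' a = T) (h2 : ∀ i, i ≠ a → S' i = S i) : Ind X A S' := by
  have hS' : ∀ i, (S' i).Countable := by
    intro i
    by_cases hi : i = a
    · subst hi
      rwa [ha]
    · rw [h2 i hi]
      exact hS i
  have e1 : ∀ K : Set κ, a ∉ K → (⋃ i ∈ K, S' i) = ⋃ i ∈ K, S i := by
    intro K hK
    refine Set.iUnion₂_congr fun i hi => h2 i ?_
    rintro rfl
    exact hK hi
  have e2 : ∀ K : Set κ, a ∈ K → (⋃ i ∈ K, S' i) = (⋃ i ∈ K \ {a}, S i) ∪ T := by
    intro K hK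
    have : K = insert a (K \ {a}) := by
      rw [Set.insert_sdiff_singleton, Set.insert_eq_of_mem hK]
    conv_lhs => rw [this]
    rw [Set.biUnion_insert, ha, e1 _ (by simp), Set.union_comm]
  -- the case `a ∈ I`
  have key : ∀ I J : Set κ, Disjoint I J → a ∈ I → SI X A (⋃ i ∈ I, S' i) (⋃ i ∈ J, S' i) := by
    intro I J hIJ haI
    have haJ : a ∉ J := Set.disjoint_left.1 hIJ haI
    rw [e1 J haJ, e2 I haI]
    have hd : Disjoint (I \ {a}) J := hIJ.mono_left Set.sdiff_subset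
    have c1 := ind_cnt hS (I \ {a})
    have cJ := ind_cnt hS J
    rcases h1 with h1 | ⟨_, h1⟩
    · refine si_left (B := ⋃ i ∈ I, S i) ?_ (h I J hIJ)
      refine Set.union_subset (ind_mono Set.sdiff_subset) (h1.trans ?_)
      exact Set.subset_biUnion_of_mem (u := S) haI
    · have h3 : SI X A (⋃ i ∈ (I \ {a}) ∪ J, S i) (S a) := by
        have := h ((I \ {a}) ∪ J) {a} (by
          rw [Set.disjoint_singleton_right]
          rintro (h4 | h4)
          · exact h4.2 rfl
          · exact haJ h4)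
        rwa [Set.biUnion_singleton] at this
      have h4 := h1 _ (ind_cnt hS _) h3
      rw [Set.biUnion_union] at h4
      exact ind_step hA c1 cJ hT (h _ _ hd) (si_symm hA (c1.union cJ) hT h4)
  intro I J hIJ
  by_cases hI : a ∈ I
  · exact key I J hIJ hI
  · by_cases hJ : a ∈ J
    · exact si_symm hA (ind_cnt hS' J) (ind_cnt hS' I) (key J I hIJ.symm hJ)
    · rw [e1 I hI, e1 J hJ]
      exact h I J hIJ

theorem ind_replace {κ : Type} [Countable κ] {S S' : κ → Set V} (hA : A.Countable)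
    (hS : ∀ i, (S i).Countable) (hS' : ∀ i, (S' i).Countable) (h : Ind X A S)
    (h1 : ∀ i, S' i ⊆ S i ∨ (S i ⊆ S' i ∧ ∀ Y : Set V, Y.Countable → SI X A Y (S i) →
      SI X A Y (S' i))) : Ind X A S' := by
  classical
  have key : ∀ K : Finset κ, Ind X A (fun i => if i ∈ K then S' i else S i) := by
    intro K
    induction K using Finset.induction_on with
    | empty => simpa using h
    | @insert a K haK ih =>
      have hc : ∀ i, (if i ∈ K then S' i else S i).Countable := by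
        intro i
        split_ifs
        · exact hS' i
        · exact hS i
      refine ind_repl hA hc ih a (S' a) (hS' a) ?_ _ ?_ ?_
      · rw [if_neg haK]
        exact h1 a
      · rw [if_pos (Finset.mem_insert_self _ _)]
      · intro i hi
        by_cases hiK : i ∈ K
        · rw [if_pos hiK, if_pos (Finset.mem_insert_of_mem hiK)]
        · rw [if_neg hiK, if_neg (by
            rw [Finset.mem_insert]
            rintro (h | h)
            · exact hi h
            · exact hiK h)]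
  refine ind_finchar hA hS' ?_
  intro s
  have := ind_reindex _ (fun i : s => (i : κ)) Subtype.val_injective (key s)
  have e : (fun i : s => if (i : κ) ∈ s then S' (i : κ) else S (i : κ)) =
      fun i : s => S' (i : κ) := by
    funext i
    rw [if_pos i.2]
  rwa [e] at this

theorem ind_exists (T : ℕ → Set V) (C : Set V) (hA : A.Countable) (hT : ∀ i, (T i).Countable)
    (hC : C.Countable) : ∃ g : ℕ → G, (∀ i, g i ∈ Fx G A) ∧ Ind X A (fun i => tr (g i) (T i)) ∧
      SI X A (⋃ i, tr (g i) (T i)) C := by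
  have step : ∀ (n : ℕ) (U : {U : Set V // U.Countable}), ∃ g : G, g ∈ Fx G A ∧
      SI X A (tr g (T n)) (C ∪ U.1) := by
    intro n U
    obtain ⟨g, h1, h2⟩ := si_ex (X := X) hA (hT n) (hC.union U.2)
    exact ⟨g, h1, h2⟩
  choose f hf using step
  let U : ℕ → {U : Set V // U.Countable} := fun n => Nat.rec ⟨∅, Set.countable_empty⟩
    (fun n U => ⟨U.1 ∪ tr (f n U) (T n), U.2.union (tr_countable _ (hT n))⟩) n
  have hU0 : (U 0).1 = ∅ := rfl
  have hU1 : ∀ n, (U (n + 1)).1 = (U n).1 ∪ tr (f n (U n)) (T n) := fun n => rfl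
  have hc : ∀ i, (tr (f i (U i)) (T i)).Countable := fun i => tr_countable _ (hT i)
  have hU : ∀ n, (U n).1 = ⋃ j ∈ {j | j < n}, tr (f j (U j)) (T j) := by
    intro n
    induction n with
    | zero =>
      rw [hU0]
      simp
    | succ n ih =>
      rw [hU1, ih]
      have : {j | j < n + 1} = insert n {j | j < n} := by
        ext j
        simp only [Set.mem_ofPred_eq, Set.mem_insert_iff]
        omega
      rw [this, Set.biUnion_insert, Set.union_comm]
  have h2 : ∀ n, SI X A (U n).1 C := by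
    intro n
    induction n with
    | zero =>
      rw [hU0]
      exact si_empty_left
    | succ n ih =>
      rw [hU1]
      refine ind_step hA (U n).2 hC (hc n) ih ?_
      rw [Set.union_comm]
      exact (hf n (U n)).2
  refine ⟨fun i => f i (U i), fun i => (hf i (U i)).1, ind_nat hA hc ?_, ?_⟩
  · intro i
    have h3 := si_right hA (hc i) (hC.union (U i).2) Set.subset_union_right (hf i (U i)).2
    rwa [hU i] at h3
  · refine si_finite hA (Set.countable_iUnion hc) hC ?_
    intro B0 C0 hB hC0 fB fC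
    have hB' : B0 ⊆ ⋃ i ∈ (Set.univ : Set ℕ), tr (f i (U i)) (T i) := by
      simpa using hB
    obtain ⟨I0, _, h4⟩ := ind_fin fB hB'
    set n := I0.sup id + 1 with hn
    have h5 : B0 ⊆ (U n).1 := by
      rw [hU n]
      refine h4.trans (ind_mono (I := (I0 : Set ℕ)) fun i hi => ?_)
      have : i ≤ I0.sup id := Finset.le_sup (f := id) hi
      show i < n
      omega
    exact si_right hA fB.countable hC hC0 (si_left h5 (h2 n))

theorem ind_sum {κ κ' : Type} [Countable κ] [Countable κ'] {S : κ → Set V} {S' : κ' → Set V}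
    (hA : A.Countable) (hS : ∀ i, (S i).Countable) (hS' : ∀ i, (S' i).Countable)
    (h : Ind X A S) (h' : Ind X A S') (h1 : SI X A (⋃ i, S i) (⋃ i, S' i)) :
    Ind X A (Sum.elim S S') := by
  intro I J hIJ
  have e : ∀ K : Set (κ ⊕ κ'), (⋃ i ∈ K, Sum.elim S S' i) =
      (⋃ i ∈ Sum.inl ⁻¹' K, S i) ∪ (⋃ i ∈ Sum.inr ⁻¹' K, S' i) := by
    intro K
    ext x
    simp only [Set.mem_iUnion, Set.mem_union, Set.mem_preimage]
    constructor
    · rintro ⟨i | i, hi, hx⟩
      · exact Or.inl ⟨i, hi, hx⟩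
      · exact Or.inr ⟨i, hi, hx⟩
    · rintro (⟨i, hi, hx⟩ | ⟨i, hi, hx⟩)
      · exact ⟨Sum.inl i, hi, hx⟩
      · exact ⟨Sum.inr i, hi, hx⟩
  rw [e I, e J]
  have d1 : SI X A (⋃ i ∈ Sum.inl ⁻¹' I, S i) (⋃ i ∈ Sum.inl ⁻¹' J, S i) :=
    h _ _ (Disjoint.preimage _ hIJ)
  have d2 : SI X A (⋃ i ∈ Sum.inr ⁻¹' I, S' i) (⋃ i ∈ Sum.inr ⁻¹' J, S' i) :=
    h' _ _ (Disjoint.preimage _ hIJ)
  have cI1 := ind_cnt hS (Sum.inl ⁻¹' I)
  have cJ1 := ind_cnt hS (Sum.inl ⁻¹' J)
  have cI2 := ind_cnt hS' (Sum.inr ⁻¹' I)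
  have cJ2 := ind_cnt hS' (Sum.inr ⁻¹' J)
  set I1 := ⋃ i ∈ Sum.inl ⁻¹' I, S i
  set J1 := ⋃ i ∈ Sum.inl ⁻¹' J, S i
  set I2 := ⋃ i ∈ Sum.inr ⁻¹' I, S' i
  set J2 := ⋃ i ∈ Sum.inr ⁻¹' J, S' i
  have d3 : SI X A (J1 ∪ I1) (J2 ∪ I2) := by
    refine si_right hA (cJ1.union cI1) (Set.countable_iUnion hS') ?_ (si_left ?_ h1)
    · refine Set.union_subset ?_ ?_ <;>
      · exact Set.iUnion₂_subset fun i _ => Set.subset_iUnion _ i
    · refine Set.union_subset ?_ ?_ <;>
      · exact Set.iUnion₂_subset fun i _ => Set.subset_iUnion _ i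
  -- `I1` is independent from `J1 ∪ J2`
  have d4 : SI X A I1 (J1 ∪ J2) := by
    have h2 := si_right hA (cJ1.union cI1) (cJ2.union cI2) Set.subset_union_left d3
    exact si_trans hA cI1 cJ1 cJ2 d1 ((si_unionl hA cJ1 cJ2 cI1).1 h2).2
  have d5 : SI X A (J2 ∪ I2) (I1 ∪ J1) := by
    have h2 := si_symm hA (cJ1.union cI1) (cJ2.union cI2) d3
    rwa [Set.union_comm J1 I1] at h2
  have d6 : SI X (A ∪ J2) I2 (I1 ∪ J1) :=
    ((si_unionl hA cJ2 (cI1.union cJ1) cI2).1 d5).2
  have d7 : SI X A I2 (J2 ∪ (I1 ∪ J1)) := si_trans hA cI2 cJ2 (cI1.union cJ1) d2 d6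
  have e7 : J2 ∪ (I1 ∪ J1) = I1 ∪ (J1 ∪ J2) := by
    rw [Set.union_comm J2, Set.union_assoc]
  rw [e7] at d7
  exact ind_step hA cI1 (cJ1.union cJ2) cI2 d4 d7

end ind

theorem st_IND : ST_IND := by
  intro V G _ _ X A hA
  exact ⟨fun S hS h => ind_nat hA hS h, fun m S hS h => ind_nfin hA hS h,
    fun κ κ' S f hf h => ind_reindex S f hf h,
    fun κ _ S Y hS hY h h1 => ind_base hA hS hY h h1,
    fun κ _ S S' hS hS' h h1 => ind_replace hA hS hS' h h1,
    fun T C hT hC => ind_exists T C hA hT hC,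
    fun κ _ S g hS h => invb_ind g hA hS h,
    fun κ κ' _ _ S S' hS hS' h h' h1 => ind_sum hA hS hS' h h' h1,
    fun κ _ S hS h => ind_finchar hA hS h⟩

end Pool.Agent.Helper90.MZ
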