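import Pool.Agent.Helper90.MZ.StmtsA

/-!
# MP_79eb7e_lc, full answer: module INVA (invariance under the group)
-/

set_option autoImplicit false

namespace Pool.Agent.Helper90.MZ

open Pool.Agent.Helper90.TS

section inva

variable {V G : Type} [Group G] [MulAction G V] {X : Ctx V G}

theorem inva_mv (g : G) (p : Ty V) : mv g⁻¹ (mv g p) = p := by
  obtain ⟨A, D, z⟩ := p
  show (⟨tr g⁻¹ (tr g A), {x | g⁻¹⁻¹ • x ∈ {x | g⁻¹ • x ∈ D}}, g⁻¹ • g • z⟩ : Ty V) = ⟨A, D, z⟩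
  have e1 : {x : Fin 1 → V | g⁻¹⁻¹ • x ∈ {x : Fin 1 → V | g⁻¹ • x ∈ D}} = D := by
    ext x
    show g⁻¹ • g⁻¹⁻¹ • x ∈ D ↔ x ∈ D
    rw [smul_inv_smul]
  rw [tr_inv_tr, e1, inv_smul_smul]

theorem inva_mv' (g : G) (p : Ty V) : mv g (mv g⁻¹ p) = p := by
  have := inva_mv g⁻¹ p
  rwa [inv_inv] at this

theorem inva_rl (g : G) (p : Ty V) (B : Set V) (y : Fin 1 → V) (hA : p.A.Countable)
    (hB : B.Countable) (h : Rl X p B y) : Rl X (mv g p) (tr g B) (g • y) := by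
  refine ⟨(eqv_tr g).2 h.1, ?_⟩
  show SI X (tr g p.A) (Set.range (g • y)) (tr g B)
  rw [← tr_range]
  exact (si_tr hA (Set.countable_range y) hB g).2 h.2

theorem inva_rl_iff (g : G) (p : Ty V) (B : Set V) (y : Fin 1 → V) (hA : p.A.Countable)
    (hB : B.Countable) : Rl X (mv g p) (tr g B) (g • y) ↔ Rl X p B y := by
  constructor
  · intro h
    have := inva_rl g⁻¹ (mv g p) (tr g B) (g • y) (tr_countable g hA) (tr_countable g hB) h
    rwa [inva_mv, tr_inv_tr, inv_smul_smul] at this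
  · exact inva_rl g p B y hA hB

theorem inva_rl_iff' (g : G) (p : Ty V) (B : Set V) (y : Fin 1 → V) (hA : p.A.Countable)
    (hB : B.Countable) : Rl X (mv g p) B y ↔ Rl X p (tr g⁻¹ B) (g⁻¹ • y) := by
  have := inva_rl_iff (X := X) g p (tr g⁻¹ B) (g⁻¹ • y) hA (tr_countable g⁻¹ hB)
  rwa [tr_tr_inv, smul_inv_smul] at this

theorem inva_rge (g : G) {ι : Type} [Finite ι] (α : Ordinal.{0}) (D : Set (ι → V)) :
    X.Rge α {x | g • x ∈ D} ↔ X.Rge α D := (a_rbas V G X ι).2.2.1 α D g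

theorem inva_dg (g : G) {ι : Type} [Finite ι] (α : Ordinal.{0}) (D : Set (ι → V))
    (h : X.Dg1 α D) : X.Dg1 α {x | g • x ∈ D} := by
  obtain ⟨h1, h2, h3⟩ := h
  refine ⟨(inva_rge g α D).2 h1, fun h => h2 ((inva_rge g _ D).1 h), ?_⟩
  intro E F hE hF hEF rE rF
  refine h3 {x | g⁻¹ • x ∈ E} {x | g⁻¹ • x ∈ F} ?_ ?_ ?_ ((inva_rge g⁻¹ α E).2 rE)
    ((inva_rge g⁻¹ α F).2 rF)
  · intro x hx
    have := hE hx
    change g • g⁻¹ • x ∈ D at this
    rwa [smul_inv_smul] at this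
  · intro x hx
    have := hF hx
    change g • g⁻¹ • x ∈ D at this
    rwa [smul_inv_smul] at this
  · rw [Set.disjoint_left] at hEF ⊢
    intro x h1 h2
    exact hEF h1 h2

theorem inva_rk (g : G) {ι : Type} [Finite ι] (A : Set V) (b : ι → V) :
    X.rk (tr g A) (g • b) = X.rk A b := (a_rkb V G X ι b).2.2.2.2.1 A g

theorem inva_ov (g : G) {ι : Type} [Finite ι] {A : Set V} {D : Set (ι → V)} (h : X.Ov A D) :
    X.Ov (tr g A) {x | g⁻¹ • x ∈ D} := by
  have := ov_smul h g⁻¹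
  rwa [inv_inv] at this

theorem inva_sta (g : G) {ι : Type} [Finite ι] {A : Set V} {b : ι → V} (h : Sta X A b) :
    Sta X (tr g A) (g • b) := by
  obtain ⟨D, hD, hb, h2⟩ := h
  refine ⟨{x | g⁻¹ • x ∈ D}, inva_ov g hD, ?_, ?_⟩
  · show g⁻¹ • g • b ∈ D
    rwa [inv_smul_smul]
  · rw [inva_rk]
    exact inva_dg g⁻¹ _ D h2

theorem inva_sr (g : G) (p : Ty V) (h : SR X p) : SR X (mv g p) where
  cnt := tr_countable g h.cnt
  ov := inva_ov g h.ov
  mem := by
    show g⁻¹ • g • p.z ∈ p.D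
    rw [inv_smul_smul]
    exact h.mem
  sta := inva_sta g h.sta
  nal := by
    show X.rk (tr g p.A) (g • p.z) ≠ 0
    rw [inva_rk]
    exact h.nal
  reg := by
    intro B hB y hy
    rcases h.reg (tr g⁻¹ B) (tr_countable g⁻¹ hB) (g⁻¹ • y) hy with h1 | h1
    · exact Or.inl ((inva_rl_iff' g p B y h.cnt hB).2 h1)
    · right
      intro z' hz'
      have h2 := h1 (g⁻¹ • z') ((inva_rl_iff' g p B z' h.cnt hB).1 hz')
      have h3 := (si_tr (h.cnt.union (tr_countable g⁻¹ hB)) (Set.countable_range _)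
        (Set.countable_range _) g).2 h2
      rw [tr_union, tr_tr_inv, tr_range, tr_range, smul_inv_smul, smul_inv_smul] at h3
      exact h3

theorem inva_no (g : G) (p q : Ty V) (h : NO X p q) : NO X (mv g p) (mv g q) := by
  obtain ⟨B, y, y', hB, h1, h2, h3, h4, h5⟩ := h
  refine ⟨tr g B, g • y, g • y', tr_countable g hB, tr_mono g h1, tr_mono g h2,
    inva_rl g p B y (hB.mono h1) hB h3, inva_rl g q B y' (hB.mono h2) hB h4, ?_⟩
  rw [← tr_range, ← tr_range]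
  intro h
  exact h5 ((si_tr hB (Set.countable_range _) (Set.countable_range _) g).1 h)

theorem inva_no_iff (g : G) (p q : Ty V) : NO X (mv g p) (mv g q) ↔ NO X p q := by
  constructor
  · intro h
    have := inva_no g⁻¹ _ _ h
    rwa [inva_mv, inva_mv] at this
  · exact inva_no g p q

theorem inva_sp (g : G) (M : Set V) (q : Ty V) (h : Sp X M q) : Sp X (tr g M) (mv g q) := by
  obtain ⟨p, h1, h2, h3⟩ := h
  exact ⟨mv g p, inva_sr g p h1, tr_mono g h2, inva_no g p q h3⟩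

theorem inva_mdl (g : G) (M : Set V) (h : Mdl X M) : Mdl X (tr g M) := by
  refine ⟨tr_countable g h.1, ?_⟩
  intro n D hD hne
  have h1 := inva_ov g⁻¹ hD
  rw [tr_inv_tr] at h1
  obtain ⟨x, hx⟩ := hne
  obtain ⟨y, hy, hyM⟩ := h.2 n _ h1 ⟨g⁻¹ • x, by
    show g⁻¹⁻¹ • g⁻¹ • x ∈ D
    rwa [inv_smul_smul]⟩
  refine ⟨g • y, ?_, ?_⟩
  · change g⁻¹⁻¹ • y ∈ D at hy
    rwa [inv_inv] at hy
  · rw [← tr_range]
    exact tr_mono g hyM

theorem inva_sup (g : G) (b : Set V) (q : Ty V) (h : Sup X b q) : Sup X (tr g b) (mv g q) := by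
  intro M hM hb
  have h1 := h (tr g⁻¹ M) (inva_mdl g⁻¹ M hM) (by
    have := tr_mono g⁻¹ hb
    rwa [tr_inv_tr] at this)
  have h2 := inva_sp g _ _ h1
  rwa [tr_tr_inv] at h2

theorem inva_range (g : G) {y : Fin 1 → V} {N : Set V} (h : Set.range y ⊆ tr g N) :
    Set.range (g⁻¹ • y) ⊆ N := by
  rw [← tr_range]
  have := tr_mono g⁻¹ h
  rwa [tr_inv_tr] at this

theorem inva_om (g : G) (p : Ty V) (B N : Set V) (hA : p.A.Countable) (hB : B.Countable)
    (h : Om X p B N) : Om X (mv g p) (tr g B) (tr g N) := by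
  intro y hy h1
  rw [inva_rl_iff' g p _ y hA (tr_countable g hB), tr_inv_tr] at h1
  exact h _ (inva_range g hy) h1

theorem inva_bd (g : G) (q : Ty V) (N : Set V) (hA : q.A.Countable) (h : Bd X q N) :
    Bd X (mv g q) (tr g N) := by
  obtain ⟨F, h1, h2, h3⟩ := h
  exact ⟨tr g F, tr_finite g h1, tr_mono g h2, inva_om g q F N hA h1.countable h3⟩

theorem inva_isl (g : G) {ι : Type} [Finite ι] (A : Set V) (c : ι → V) (h : Isl X A c) :
    Isl X (tr g A) (g • c) := by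
  obtain ⟨D, h1, h2, h3⟩ := h
  refine ⟨{x | g⁻¹ • x ∈ D}, inva_ov g h1, ?_, ?_⟩
  · show g⁻¹ • g • c ∈ D
    rwa [inv_smul_smul]
  · intro x hx
    have := (eqv_tr g).2 (h3 _ hx)
    rwa [smul_inv_smul] at this

theorem inva_isl_iff (g : G) {ι : Type} [Finite ι] (A : Set V) (c : ι → V) :
    Isl X (tr g A) (g • c) ↔ Isl X A c := by
  constructor
  · intro h
    have := inva_isl g⁻¹ _ _ h
    rwa [tr_inv_tr, inv_smul_smul] at this
  · exact inva_isl g A c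

theorem inva_atm (g : G) (A N : Set V) (h : Atm X A N) : Atm X (tr g A) (tr g N) := by
  obtain ⟨h1, h2, h3⟩ := h
  refine ⟨inva_mdl g N h1, tr_mono g h2, ?_⟩
  intro n c hc
  have h4 : Set.range (g⁻¹ • c) ⊆ N := by
    rw [← tr_range]
    have := tr_mono g⁻¹ hc
    rwa [tr_inv_tr] at this
  have h5 := inva_isl g A _ (h3 n _ h4)
  rwa [smul_inv_smul] at h5

theorem inva_eni (g : G) (q : Ty V) (h : ENI X q) : ENI X (mv g q) := by
  obtain ⟨h1, h2, F, h3, h4, h5⟩ := h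
  refine ⟨inva_sr g q h1, tr_finite g h2, tr g F, tr_finite g h3, tr_mono g h4, ?_⟩
  intro y hy h6
  rw [inva_rl_iff' g q _ y h1.cnt (tr_countable g h3.countable), tr_inv_tr] at hy
  refine h5 _ hy ?_
  have := inva_isl g⁻¹ _ _ h6
  rwa [tr_inv_tr] at this

theorem inva_en0 (g : G) (q : Ty V) (h : EN0 X q) : EN0 X (mv g q) := by
  obtain ⟨h1, h2, h3⟩ := h
  refine ⟨inva_sr g q h1, tr_finite g h2, ?_⟩
  intro h4
  exact h3 ((inva_isl_iff g q.A q.z).1 h4)

theorem inva_act (g : G) (p : Ty V) (h : Act X p) : Act X (mv g p) := by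
  obtain ⟨M, N, z, q, h1, h2, h3, h4, h5, h6, h7⟩ := h
  refine ⟨tr g M, tr g N, g • z, mv g q, inva_mdl g M h1, tr_mono g h2,
    inva_rl g p M z (h1.1.mono h2) h1.1 h3, ?_, inva_eni g q h5, inva_sp g N q h6, ?_⟩
  · have := inva_atm g _ _ h4
    rwa [tr_union, tr_range] at this
  · intro h8
    have := inva_sp g⁻¹ _ _ h8
    rw [tr_inv_tr, inva_mv] at this
    exact h7 this

theorem inva_singleton {ι : Type} [Finite ι] (z : ι → V) :
    ¬ X.Rge (Order.succ 0) ({z} : Set (ι → V)) := by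
  rw [rge_iff]
  rintro ⟨_, _, h⟩
  obtain ⟨F, h1, h2, h3⟩ := h 0 (Order.lt_succ 0)
  have h4 : ∀ i, z ∈ F i := by
    intro i
    obtain ⟨_, ⟨x, hx⟩, _⟩ := (rge_iff X 0 (F i)).1 (h3 i)
    have := h1 i hx
    rw [Set.mem_singleton_iff] at this
    rwa [← this]
  exact Set.disjoint_left.1 (h2 0 1 (by norm_num)) (h4 0) (h4 1)

theorem inva_rk_self {ι : Type} [Finite ι] (A : Set V) (z : ι → V) :
    X.rk (A ∪ Set.range z) z = 0 := by
  have h := (a_rkb V G X ι z).2.1 (A ∪ Set.range z) {z} 0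
    (ov_mono X Set.subset_union_right (ov_singleton z)) rfl (inva_singleton z)
  exact le_antisymm h zero_le

theorem inva_fx (g : G) (p : Ty V) (h : SR X p) (hg : g ∈ Fx G p.A) :
    (mv g p).A = p.A ∧ (mv g p).D = p.D ∧
    (∀ (B : Set V) (y : Fin 1 → V), Rl X (mv g p) B y ↔ Rl X p B y) ∧ NO X (mv g p) p := by
  have e1 : (mv g p).A = p.A := tr_fx hg
  have e2 : (mv g p).D = p.D := by
    ext x
    show g⁻¹ • x ∈ p.D ↔ x ∈ p.D
    exact inv_iff h.ov.2 (inv_mem hg) x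
  have e3 : ∀ (B : Set V) (y : Fin 1 → V), Rl X (mv g p) B y ↔ Rl X p B y := by
    intro B y
    unfold Rl
    rw [e1]
    have h1 : Eqv G p.A (mv g p).z y ↔ Eqv G p.A p.z y := by
      have h2 : Eqv G p.A p.z (mv g p).z := ⟨g, hg, rfl⟩
      exact ⟨fun h => eqv_trans h2 h, fun h => eqv_trans (eqv_symm h2) h⟩
    rw [h1]
  refine ⟨e1, e2, e3, p.A, p.z, p.z, h.cnt, e1.le, le_rfl, ?_, ?_, ?_⟩
  · rw [e3]
    exact ⟨eqv_refl _ _, si_self_right le_rfl⟩
  · exact ⟨eqv_refl _ _, si_self_right le_rfl⟩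
  · intro h1
    have h2 := (rk_si h.cnt (Set.countable_range p.z)).2 h1
    rw [inva_rk_self] at h2
    exact h.nal h2.symm

end inva

theorem st_INVA : ST_INVA := by
  intro V G _ _ X g
  exact ⟨inva_mv g, inva_rl g, inva_sr g, inva_no g, inva_sp g, inva_sup g, inva_om g, inva_bd g,
    inva_eni g, inva_en0 g, inva_act g, fun p h hg => inva_fx g p h hg⟩

end Pool.Agent.Helper90.MZ
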