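import Pool.Agent.Helper5.MZ.INVA

/-!
# MP_79eb7e_lc, full answer: module INVB (invariance under the group, remaining notions)
-/

set_option autoImplicit false

namespace Pool.Agent.Helper90.MZ

open Pool.Agent.Helper90.TS

section invb

variable {V G : Type} [Group G] [MulAction G V] {X : Ctx V G}

theorem invb_ind (g : G) {κ : Type} [Countable κ] {A : Set V} {S : κ → Set V} (hA : A.Countable)
    (hS : ∀ i, (S i).Countable) (h : Ind X A S) : Ind X (tr g A) (fun i => tr g (S i)) := by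
  intro I J hIJ
  have e : ∀ I : Set κ, (⋃ i ∈ I, tr g (S i)) = tr g (⋃ i ∈ I, S i) := by
    intro I
    rw [tr_iUnion]
    refine Set.iUnion_congr fun i => ?_
    exact Set.image_iUnion.symm
  rw [e I, e J]
  exact (si_tr hA (I.to_countable.biUnion fun i _ => hS i)
    (J.to_countable.biUnion fun i _ => hS i) g).2 (h I J hIJ)

theorem invb_ind_iff (g : G) {κ : Type} [Countable κ] {A : Set V} {S : κ → Set V}
    (hA : A.Countable) (hS : ∀ i, (S i).Countable) :
    Ind X (tr g A) (fun i => tr g (S i)) ↔ Ind X A S := by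
  constructor
  · intro h
    have := invb_ind g⁻¹ (tr_countable g hA) (fun i => tr_countable g (hS i)) h
    simpa only [tr_inv_tr] using this
  · exact invb_ind g hA hS

theorem invb_wb (g : G) (A u : Set V) (k : ℕ) (hA : A.Countable) (hu : u.Countable)
    (h : WB X A u k) : WB X (tr g A) (tr g u) k := by
  intro Y hY h1 m S hS h2
  have hY' := tr_countable g⁻¹ hY
  have h3 : SI X A u (tr g⁻¹ Y) := by
    rw [← si_tr hA hu hY' g, tr_tr_inv]
    exact h1
  have h4 : Ind X (A ∪ tr g⁻¹ Y) (fun i => tr g⁻¹ (S i)) := by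
    have := invb_ind g⁻¹ ((tr_countable g hA).union hY) hS h2
    rwa [tr_union, tr_inv_tr] at this
  obtain ⟨J, hJ, h5⟩ := h _ hY' h3 m _ (fun i => tr_countable g⁻¹ (hS i)) h4
  refine ⟨J, hJ, ?_⟩
  have hc : (⋃ i ∈ {i | i ∉ J}, tr g⁻¹ (S i)).Countable :=
    (Set.to_countable _).biUnion fun i _ => tr_countable g⁻¹ (hS i)
  have h6 := (si_tr (hA.union hY') hc hu g).2 h5
  rw [tr_union, tr_tr_inv] at h6
  have e : tr g (⋃ i ∈ {i | i ∉ J}, tr g⁻¹ (S i)) = ⋃ i ∈ {i | i ∉ J}, S i := by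
    rw [tr_iUnion]
    refine Set.iUnion_congr fun i => ?_
    show (fun a => g • a) '' (⋃ (_ : i ∈ {i | i ∉ J}), tr g⁻¹ (S i)) = _
    rw [Set.image_iUnion]
    refine Set.iUnion_congr fun _ => ?_
    exact tr_tr_inv g (S i)
  rwa [e] at h6

theorem invb_triv (g : G) (p : Ty V) (hA : p.A.Countable) (h : Triv X p) : Triv X (mv g p) := by
  intro B hB m y hy hyy
  have hB' := tr_countable g⁻¹ hB
  have h1 := h (tr g⁻¹ B) hB' m (fun i => g⁻¹ • y i)
    (fun i => (inva_rl_iff' g p B (y i) hA hB).1 (hy i)) (by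
      intro i j hij
      rw [← si_tr (hA.union hB') (Set.countable_range _) (Set.countable_range _) g, tr_union,
        tr_tr_inv, tr_range, tr_range, smul_inv_smul, smul_inv_smul]
      exact hyy i j hij)
  have h2 := invb_ind g (hA.union hB') (fun i => Set.countable_range _) h1
  rw [tr_union, tr_tr_inv] at h2
  simp only [tr_range, smul_inv_smul] at h2
  exact h2

theorem invb_dom (g : G) (b u : Set V) (ι : Type) [Finite ι] (c : ι → V) (hb : b.Countable)
    (hu : u.Countable) (h : Dom X b u c) : Dom X (tr g b) (tr g u) (g • c) := by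
  obtain ⟨D, h1, h2, h3⟩ := h
  refine ⟨{x | g⁻¹ • x ∈ D}, ?_, ?_, ?_⟩
  · rw [← tr_union]
    exact inva_ov g h1
  · show g⁻¹ • g • c ∈ D
    rwa [inv_smul_smul]
  · intro Y hY h4
    have hY' := tr_countable g⁻¹ hY
    have h5 : SI X b (tr g⁻¹ Y) u := by
      rw [← si_tr hb hY' hu g, tr_tr_inv]
      exact h4
    obtain ⟨h6, h7⟩ := h3 _ hY' h5
    constructor
    · have h8 := (si_tr hb hY' (hu.union (Set.countable_range c)) g).2 h6
      rwa [tr_tr_inv, tr_union, tr_range] at h8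
    · intro x hx
      have h8 := (eqv_tr g).2 (h7 _ hx)
      rwa [smul_inv_smul, tr_union, tr_union, tr_tr_inv] at h8

theorem invb_dmn (g : G) (p : Ty V) (B N : Set V) (k : ℕ) (hA : p.A.Countable)
    (hB : B.Countable) (h : Dmn X p B N k) : Dmn X (mv g p) (tr g B) (tr g N) k := by
  obtain ⟨y, h1, h2, h3⟩ := h
  refine ⟨fun i => g • y i, fun i => ⟨?_, inva_rl g p B (y i) hA hB (h1 i).2⟩, ?_, ?_⟩
  · rw [← tr_range]
    exact tr_mono g (h1 i).1
  · have h4 := invb_ind g (hA.union hB) (fun i => Set.countable_range _) h2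
    rw [tr_union] at h4
    simp only [tr_range] at h4
    exact h4
  · have h4 := inva_om g p _ N hA (hB.union (Set.countable_iUnion fun i =>
      Set.countable_range (y i))) h3
    rw [tr_union, tr_iUnion] at h4
    simp only [tr_range] at h4
    exact h4

theorem invb_sup_iff (g : G) (b : Set V) (q : Ty V) : Sup X (tr g b) (mv g q) ↔ Sup X b q := by
  constructor
  · intro h
    have := inva_sup g⁻¹ _ _ h
    rwa [tr_inv_tr, inva_mv] at this
  · exact inva_sup g b q

theorem invb_fam (g : G) (b : Set V) (κ : Type) (C : κ → Ty V) (h : Fam X b C) :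
    Fam X (tr g b) (fun i => mv g (C i)) := by
  refine ⟨fun i => ⟨inva_eni g _ (h.1 i).1, ?_⟩, fun i j hij => ?_⟩
  · rw [invb_sup_iff]
    exact (h.1 i).2
  · rw [inva_no_iff]
    exact h.2 i j hij

theorem invb_idp (g : G) (b : Set V) (κ : Type) [Countable κ] (C : κ → Ty V) (J : Set κ)
    (hb : b.Countable) (h : Idp X b C J) : Idp X (tr g b) (fun i => mv g (C i)) J := by
  obtain ⟨q, h1, h2⟩ := h
  refine ⟨fun i => mv g (q i), fun i hi => ⟨inva_sr g _ (h1 i hi).1,
    tr_finite g (h1 i hi).2.1, inva_no g _ _ (h1 i hi).2.2⟩, ?_⟩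
  exact invb_ind g hb (fun i : J => (h1 i i.2).2.1.countable) h2

theorem invb_indec (g : G) (b : Set V) (κ : Type) [Countable κ] (C : κ → Ty V)
    (hb : b.Countable) (h : Indec X b C) : Indec X (tr g b) (fun i => mv g (C i)) := by
  intro J hJ hJ'
  obtain ⟨J1, J2, h1, h2, h3, h4, h5⟩ := h J hJ hJ'
  refine ⟨J1, J2, h1, h2, invb_idp g b κ C J1 hb h3, invb_idp g b κ C J2 hb h4, ?_⟩
  intro h6
  have h7 := invb_idp g⁻¹ _ κ _ _ (tr_countable g hb) h6
  simp only [tr_inv_tr, inva_mv] at h7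
  exact h5 h7

theorem invb_nb (g : G) (b y : Set V) (q : Ty V) (hb : b.Countable) (hy : y.Countable)
    (h : NB X b y q) : NB X (tr g b) (tr g y) (mv g q) := by
  intro q' h1 h2 h3 h4
  refine h (mv g⁻¹ q') (inva_sr g⁻¹ q' h1) (tr_finite g⁻¹ h2) ?_ ?_
  · have := inva_no g⁻¹ _ _ h3
    rwa [inva_mv] at this
  · have := (si_tr (tr_countable g hb) h2.countable (tr_countable g hy) g⁻¹).2 h4
    rwa [tr_inv_tr, tr_inv_tr] at this

theorem invb_orf (g : G) (p : Ty V) (M : Set V) (E : Set (Fin 1 → V)) (hA : p.A.Countable)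
    (h : OrF X p M E) : OrF X (mv g p) (tr g M) {x | g⁻¹ • x ∈ E} := by
  intro B hB h1 b hb y hy
  have hB' := tr_countable g⁻¹ hB
  have h2 := h (tr g⁻¹ B) hB' (by
    have := tr_mono g⁻¹ h1
    rwa [tr_inv_tr] at this) (g⁻¹ • b) hb (g⁻¹ • y) ((inva_rl_iff' g p B y hA hB).1 hy)
  rw [← si_tr (hA.union hB') (Set.countable_range _) (Set.countable_range _) g, tr_union,
    tr_tr_inv, tr_range, tr_range, smul_inv_smul, smul_inv_smul] at h2
  exact h2

end invb

theorem st_INVB : ST_INVB := by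
  intro V G _ _ X g
  exact ⟨invb_wb g, invb_triv g, fun b u ι _ c h1 h2 h => invb_dom g b u ι c h1 h2 h, invb_dmn g,
    invb_fam g, fun b κ _ C J hb h => invb_idp g b κ C J hb h,
    fun b κ _ C hb h => invb_indec g b κ C hb h, invb_nb g, invb_orf g⟩

end Pool.Agent.Helper90.MZ
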