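import Pool.Agent.Helper5.MZ.INVA

/-!
# MP_79eb7e_lc, full answer: module NOEQ (nonorthogonality is an equivalence relation)
-/

set_option autoImplicit false

namespace Pool.Agent.Helper90.MZ

open Pool.Agent.Helper90.TS

theorem noeq_refl {V G : Type} [Group G] [MulAction G V] {X : Ctx V G} (p : Ty V)
    (h : SR X p) : NO X p p := by
  refine ⟨p.A, p.z, p.z, h.cnt, le_rfl, le_rfl, ⟨eqv_refl _ _, si_self_right le_rfl⟩,
    ⟨eqv_refl _ _, si_self_right le_rfl⟩, ?_⟩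
  intro h1
  have h2 := (rk_si h.cnt (Set.countable_range p.z)).2 h1
  rw [inva_rk_self] at h2
  exact h.nal h2.symm

theorem noeq_symm {V G : Type} [Group G] [MulAction G V] {X : Ctx V G} (p q : Ty V)
    (h : NO X p q) : NO X q p := by
  obtain ⟨B, y, y', hB, h1, h2, h3, h4, h5⟩ := h
  exact ⟨B, y', y, hB, h2, h1, h4, h3, fun h =>
    h5 (si_symm hB (Set.countable_range _) (Set.countable_range _) h)⟩

theorem st_NOEQ (hNWO : ST_NWO) (hUSEV : ST_USEV) (hPRIM : ST_PRIM) (hMDLB : ST_MDLB)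
    (hRLB : ST_RLB) : ST_NOEQ := by
  intro V G _ _ X
  refine ⟨noeq_refl, noeq_symm, ?_⟩
  intro p q r hp hq hr hpq hqr
  have mdl : ∀ C : Set V, C.Countable → ∃ M, Mdl X M ∧ C ⊆ M := by
    intro C hC
    obtain ⟨M, h1, h2, _⟩ := (hMDLB V G X).2.1 C ∅ C le_rfl hC Set.countable_empty
      si_empty_right
    exact ⟨M, h1, h2⟩
  obtain ⟨N, hN, hsub⟩ := mdl (p.A ∪ q.A ∪ r.A) ((hp.cnt.union hq.cnt).union hr.cnt)
  have hpN : p.A ⊆ N := fun x hx => hsub (Or.inl (Or.inl hx))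
  have hqN : q.A ⊆ N := fun x hx => hsub (Or.inl (Or.inr hx))
  have hrN : r.A ⊆ N := fun x hx => hsub (Or.inr hx)
  obtain ⟨y2, hy2⟩ := (hRLB V G X r hr N hN.1).1
  obtain ⟨N1, hN1, hsub1⟩ := mdl (N ∪ Set.range y2) (hN.1.union (Set.countable_range y2))
  obtain ⟨N2, _, hat⟩ := hPRIM V G X (N ∪ Set.range y2) N1 hN1 hsub1
  have hN2 : Mdl X N2 := hat.1
  have hNN2 : N ⊆ N2 := Set.subset_union_left.trans hat.2.1
  have hyN2 : Set.range y2 ⊆ N2 := Set.subset_union_right.trans hat.2.1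
  obtain ⟨y1, h1, h2⟩ := hNWO V G X q r N N2 y2 hq hr hqr hN hqN hrN hy2 hN2 hNN2 hyN2
  obtain ⟨y, h3, h4⟩ := hNWO V G X p q N N2 y1 hp hq hpq hN hpN hqN h2 hN2 hNN2 h1
  refine ⟨N, y, y2, hN.1, hpN, hrN, h4, hy2, ?_⟩
  intro h5
  have h6 := (hRLB V G X p hp N hN.1).2.2.2.2.2.2.2.1 y h4 hN hpN
  exact h6 (hUSEV V G X N (Set.range y2) hN (Set.countable_range y2) (Fin 1) y
    (hat.2.2 1 y h3) h5)

end Pool.Agent.Helper90.MZ
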