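import Pool.Agent.Helper90.MZ.StmtsT

/-!
# MP_79eb7e_lc, full answer: module OTH (the two steps of the Henkin construction)
-/

set_option autoImplicit false

namespace Pool.Agent.Helper90.MZ

open Pool.Agent.Helper90.TS
open FirstOrder Language

section oth

variable {L : FirstOrder.Language.{0, 0}} {C : Type} [L.Structure C]

theorem oth_eq {ι : Type} [Finite ι] {A : Set C} (j : ι) (a : C) (ha : a ∈ A) :
    A.Definable L {x : ι → C | x j = a} := by
  refine (st_CPAR L C ι A _).2 ⟨1, fun _ => a, {w | w (Sum.inl 0) = w (Sum.inr j)}, ?_, ?_, ?_⟩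
  · rintro _ ⟨_, rfl⟩
    exact ha
  · refine ⟨(Term.var (Sum.inl 0)).equal (Term.var (Sum.inr j)), ?_⟩
    ext w
    simp [Formula.realize_equal, Term.realize_var]
  · ext x
    show x j = a ↔ a = x j
    exact eq_comm

theorem oth_pre {ι κ : Type} {A : Set C} (σ : κ → ι) {D : Set (κ → C)} (h : A.Definable L D) :
    A.Definable L {x : ι → C | x ∘ σ ∈ D} := h.preimage_comp σ

theorem oth_sort {ι : Type} {A : Set C} {S : Set C} (h : (∅ : Set C).Definable₁ L S) (j : ι) :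
    A.Definable L {x : ι → C | x j ∈ S} := by
  have h1 : (∅ : Set C).Definable L {x : Fin 1 → C | x 0 ∈ S} := h
  have h2 := (oth_pre (fun _ : Fin 1 => j) h1).mono (Set.empty_subset A)
  exact h2

end oth

theorem st_OTH : ST_OTH := by
  intro L C _ _ S hM A U hAU hpt k θ hθ hb hne
  obtain ⟨N1, hN1⟩ := hb
  have bdd : ∀ (N : ℕ) (θ' : Set (Fin (k + 1) → C)),
      (∀ x ∈ θ', (fun i : Fin k => x i.castSucc) ∈ θ ∧ x (Fin.last k) ∈ S N) → Bdd S θ' := by
    intro N θ' h
    refine ⟨max N N1, fun x hx i => ?_⟩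
    refine Fin.lastCases ?_ ?_ i
    · exact hM.mono (le_max_left _ _) (h x hx).2
    · intro i
      exact hM.mono (le_max_right _ _) (hN1 _ (h x hx).1 i)
  constructor
  · intro Ψ hΨ
    by_cases hex : ∃ x ∈ θ, ∃ y, Sum.elim x y ∈ Ψ
    · obtain ⟨x0, hx0, y0, hy0⟩ := hex
      obtain ⟨N, hN⟩ := hM.cover (y0 ())
      refine ⟨({x | x ∘ (Fin.castSucc : Fin k → Fin (k + 1)) ∈ θ} ∩
        {x | x ∘ (Sum.elim Fin.castSucc (fun _ => Fin.last k) : Fin k ⊕ Unit → Fin (k + 1)) ∈ Ψ}) ∩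
        {x | x (Fin.last k) ∈ S N}, ?_, ?_, ?_, ?_, ?_⟩
      · exact ((oth_pre _ hθ).inter (oth_pre _ hΨ)).inter (oth_sort (hM.sortdef N) _)
      · refine bdd N _ ?_
        rintro x ⟨⟨h1, _⟩, h2⟩
        exact ⟨h1, h2⟩
      · have e1 : (Fin.snoc (α := fun _ => C) x0 (y0 ())) ∘ Fin.castSucc = x0 := by
          funext i
          simp
        have e2 : (Fin.snoc (α := fun _ => C) x0 (y0 ())) ∘
            (Sum.elim Fin.castSucc (fun _ => Fin.last k) : Fin k ⊕ Unit → Fin (k + 1)) =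
            Sum.elim x0 y0 := by
          funext i
          rcases i with i | i
          · simp
          · simp
        refine ⟨Fin.snoc (α := fun _ => C) x0 (y0 ()), ⟨?_, ?_⟩, ?_⟩
        · show (Fin.snoc (α := fun _ => C) x0 (y0 ())) ∘ Fin.castSucc ∈ θ
          rw [e1]
          exact hx0
        · show (Fin.snoc (α := fun _ => C) x0 (y0 ())) ∘
            (Sum.elim Fin.castSucc (fun _ => Fin.last k) : Fin k ⊕ Unit → Fin (k + 1)) ∈ Ψ
          rw [e2]
          exact hy0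
        · show (Fin.snoc (α := fun _ => C) x0 (y0 ())) (Fin.last k) ∈ S N
          rw [Fin.snoc_last]
          exact hN
      · rintro x ⟨⟨h1, _⟩, _⟩
        exact h1
      · left
        rintro x ⟨⟨_, h2⟩, _⟩
        have e : (x ∘ (Sum.elim Fin.castSucc (fun _ => Fin.last k) :
            Fin k ⊕ Unit → Fin (k + 1))) =
            Sum.elim (fun i : Fin k => x i.castSucc) (fun _ => x (Fin.last k)) := by
          funext i
          rcases i with i | i <;> rfl
        change x ∘ (Sum.elim Fin.castSucc (fun _ => Fin.last k) :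
            Fin k ⊕ Unit → Fin (k + 1)) ∈ Ψ at h2
        rwa [e] at h2
    · obtain ⟨y⟩ := ‹Nonempty C›
      obtain ⟨N, hN⟩ := hM.cover y
      obtain ⟨x0, hx0⟩ := hne
      refine ⟨{x | x ∘ (Fin.castSucc : Fin k → Fin (k + 1)) ∈ θ} ∩
        {x | x (Fin.last k) ∈ S N}, ?_, ?_, ?_, ?_, ?_⟩
      · exact (oth_pre _ hθ).inter (oth_sort (hM.sortdef N) _)
      · refine bdd N _ ?_
        rintro x ⟨h1, h2⟩
        exact ⟨h1, h2⟩
      · have e1 : (Fin.snoc (α := fun _ => C) x0 y) ∘ Fin.castSucc = x0 := by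
          funext i
          simp
        refine ⟨Fin.snoc (α := fun _ => C) x0 y, ?_, ?_⟩
        · show (Fin.snoc (α := fun _ => C) x0 y) ∘ Fin.castSucc ∈ θ
          rw [e1]
          exact hx0
        · show (Fin.snoc (α := fun _ => C) x0 y) (Fin.last k) ∈ S N
          rw [Fin.snoc_last]
          exact hN
      · rintro x ⟨h1, _⟩
        exact h1
      · right
        rintro x ⟨h1, _⟩ y' hy'
        exact hex ⟨_, h1, y', hy'⟩
  · intro j D hD hDU
    by_cases hex : ∃ x ∈ θ, (fun _ : Unit => x j) ∈ D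
    · have hθ1 : A.Definable L (θ ∩ {x : Fin k → C | x ∘ (fun _ : Unit => j) ∈ D}) :=
        hθ.inter ((oth_pre (fun _ : Unit => j) hD).mono (Set.empty_subset A))
      obtain ⟨x0, hx0, hx0D⟩ := hex
      obtain ⟨y, hy, hyA⟩ := hpt _ (hθ1.image_comp (fun _ : Unit => j)) ⟨_, x0, ⟨hx0, hx0D⟩, rfl⟩
        (by
          rintro _ ⟨x, ⟨_, hx⟩, rfl⟩
          exact hDU _ hx)
      obtain ⟨x1, ⟨hx1, hx1D⟩, rfl⟩ := hy
      refine ⟨(θ ∩ {x : Fin k → C | x ∘ (fun _ : Unit => j) ∈ D}) ∩ {x | x j = x1 j},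
        fun x hx => hx.1.1, hθ1.inter (oth_eq j _ hyA), ⟨x1, ⟨hx1, hx1D⟩, rfl⟩,
        Or.inr ⟨x1 j, hyA, fun x hx => hx.2⟩⟩
    · refine ⟨θ, le_rfl, hθ, hne, Or.inl ?_⟩
      intro x hx h
      exact hex ⟨x, hx, h⟩

end Pool.Agent.Helper90.MZ
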