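import Pool.Agent.Helper5.MZ.OTH

/-!
# MP_79eb7e_lc, full answer: module OTT (omitting types)
-/

set_option autoImplicit false

namespace Pool.Agent.Helper90.MZ

open Pool.Agent.Helper90.TS
open FirstOrder Language

theorem st_OTT (hOTS : ST_OTS) : ST_OTT := by
  intro L C _ T X hX F hF
  obtain ⟨u1, _, _, u4⟩ := a_uu1 L C T
  set A : Set C := {c | c ∈ T.U0 ∧ ∃ x ∈ F, (x : C) = c} with hAdef
  have hA : A.Countable := by
    refine (hF.1.image (fun x : T.V => (x : C))).mono ?_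
    rintro c ⟨_, x, hx, rfl⟩
    exact ⟨x, hx, rfl⟩
  have hAU : A ⊆ T.U0 := fun c hc => hc.1
  have hAUU : A ⊆ (T.UU : Set C) := hAU.trans u1
  obtain ⟨N, hN1, hN2, hN3⟩ := hOTS L C T.S T.hM A T.U0 hA hAU
    (by
      intro x hx
      obtain ⟨B, b1, b2, b3, b4⟩ := u4 Unit (fun _ => x) (fun _ => hx)
      exact ⟨B, b1, b2, b3, fun y hy => b4 y hy ()⟩) (by
      intro D hD hne hDU
      obtain ⟨y0, hy0⟩ := hne
      obtain ⟨B, hB1, hB2, hB3, hB4⟩ := u4 Unit y0 (fun _ => hDU y0 hy0)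
      set σ : Unit → Fin 1 := fun _ => 0 with hσ
      set E : Set (Fin 1 → T.V) := {x | (up x) ∘ σ ∈ D ∩ B} with hE
      have him : im E = {z : Fin 1 → C | z ∘ σ ∈ D ∩ B} := by
        ext z
        constructor
        · rintro ⟨x, hx, rfl⟩
          exact hx
        · intro hz
          have h1 : ∀ i, z i ∈ (T.UU : Set C) := by
            intro i
            have := hB4 _ hz.2 ()
            rw [Subsingleton.elim i 0]
            exact u1 this
          exact ⟨fun i => ⟨z i, h1 i⟩, hz, rfl⟩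
      have hDB : A.Definable L (D ∩ B) := hD.inter (hB1.mono (Set.empty_subset A))
      have hEdf : E ∈ X.Df (Fin 1) := by
        rw [hX]
        refine ⟨?_, {z : Fin 1 → C | z ∘ σ ∈ B}, oth_pre σ hB1, ?_, ?_, ?_⟩
        · rw [him]
          exact (oth_pre σ hDB).mono hAUU
        · obtain ⟨N, hN⟩ := hB2
          refine ⟨N, fun x hx i => ?_⟩
          rw [Subsingleton.elim i 0]
          exact hN _ hx ()
        · rw [him]
          exact fun z hz => hz.2
        · intro x hx i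
          rw [Subsingleton.elim i 0]
          exact u1 (hB4 _ hx ())
      have hEov : X.Ov F E := by
        refine ⟨hEdf, fun g hg x hx => ?_⟩
        have hgA : g ∈ Fx (AutG L C) A := by
          rintro _ ⟨_, v, hv, rfl⟩
          have := hg v hv
          exact congrArg Subtype.val this
        exact ((st_CINV L C Unit A (D ∩ B) hDB).1 g hgA ((up x) ∘ σ)).2 hx
      obtain ⟨x, hx, hxF⟩ := hF.2 1 E hEov (by
        have h1 : ∀ i : Fin 1, y0 () ∈ (T.UU : Set C) := fun _ => u1 (hDU y0 hy0)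
        exact ⟨fun i => ⟨y0 (), h1 i⟩, hy0, hB3⟩)
      refine ⟨(up x) ∘ σ, hx.1, hB4 _ hx.2 (), x 0, hxF ⟨0, rfl⟩, rfl⟩)
  refine ⟨N, hN1, fun x hx => ⟨fun h => ?_, fun h => hN2 ⟨hx, x, h, rfl⟩⟩⟩
  obtain ⟨_, x', hx', hxx⟩ := hN3 ⟨h, hx⟩
  have : x' = x := Subtype.ext hxx
  rwa [← this]

end Pool.Agent.Helper90.MZ
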