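import Pool.Agent.Helper5.MZ.OTH

/-!
# MP_79eb7e_lc, full answer: module OTW (the Henkin construction)
-/

set_option autoImplicit false

namespace Pool.Agent.Helper90.MZ

open Pool.Agent.Helper90.TS
open FirstOrder Language

section otw

variable (L : FirstOrder.Language.{0, 0}) {C : Type} [L.Structure C] (S : ℕ → Set C) (A U : Set C)

/-- tasks of the construction -/
abbrev OtwTask : Type :=
  (Σ k : ℕ, {Ψ : Set (Fin k ⊕ Unit → C) // A.Definable L Ψ}) ⊕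
    (ℕ × {D : Set (Unit → C) // Z0 L D ∧ ∀ y ∈ D, y () ∈ U})

/-- states of the construction -/
abbrev OtwState (n : ℕ) : Type :=
  {θ : Set (Fin n → C) // A.Definable L θ ∧ Bdd S θ ∧ θ.Nonempty}

/-- the task `τ` has been treated in `θ` -/
def OtwGood (n : ℕ) (θ : Set (Fin (n + 1) → C)) : OtwTask L A U → Prop
  | Sum.inl ⟨k, Ψ⟩ => ∀ h : k ≤ n,
      (∀ x ∈ θ, Sum.elim (fun i : Fin k => x (Fin.castSucc (Fin.castLE h i)))
        (fun _ => x (Fin.last n)) ∈ Ψ.1) ∨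
      ∀ x ∈ θ, ∀ y, Sum.elim (fun i : Fin k => x (Fin.castSucc (Fin.castLE h i))) y ∉ Ψ.1
  | Sum.inr ⟨j, D⟩ => ∀ h : j < n,
      (∀ x ∈ θ, (fun _ => x (Fin.castSucc ⟨j, h⟩)) ∉ D.1) ∨
      ∃ a ∈ A, ∀ x ∈ θ, x (Fin.castSucc ⟨j, h⟩) = a

variable {L S A U}

theorem otw_step (hOTH : ST_OTH) [Nonempty C] (hM : Monster L C S) (hAU : A ⊆ U)
    (hpt : ∀ (D : Set (Unit → C)), A.Definable L D → D.Nonempty → (∀ y ∈ D, y () ∈ U) →
      ∃ y ∈ D, y () ∈ A) (n : ℕ) (θ : OtwState L S A n) (τ : OtwTask L A U) :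
    ∃ θ' : OtwState L S A (n + 1), (∀ x ∈ θ'.1, (fun i : Fin n => x i.castSucc) ∈ θ.1) ∧
      OtwGood L A U n θ'.1 τ := by
  obtain ⟨θ, h1, h2, h3⟩ := θ
  obtain ⟨o1, o2⟩ := hOTH L C S hM A U hAU hpt n θ h1 h2 h3
  have triv : ∃ θ' : Set (Fin (n + 1) → C), A.Definable L θ' ∧ Bdd S θ' ∧ θ'.Nonempty ∧
      (∀ x ∈ θ', (fun i : Fin n => x i.castSucc) ∈ θ) := by
    obtain ⟨θ', k1, k2, k3, k4, _⟩ := o1 Set.univ Set.definable_univ
    exact ⟨θ', k1, k2, k3, k4⟩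
  rcases τ with ⟨k, Ψ, hΨ⟩ | ⟨j, D, hD, hDU⟩
  · by_cases hk : k ≤ n
    · obtain ⟨θ', k1, k2, k3, k4, k5⟩ := o1
        {z | z ∘ (Sum.map (Fin.castLE hk) id : Fin k ⊕ Unit → Fin n ⊕ Unit) ∈ Ψ} (oth_pre _ hΨ)
      have e : ∀ (x : Fin n → C) (y : Unit → C),
          (Sum.elim x y) ∘ (Sum.map (Fin.castLE hk) id : Fin k ⊕ Unit → Fin n ⊕ Unit) =
          Sum.elim (fun i : Fin k => x (Fin.castLE hk i)) y := by
        intro x y
        funext i
        rcases i with i | i <;> rfl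
      refine ⟨⟨θ', k1, k2, k3⟩, k4, ?_⟩
      intro h
      rcases k5 with k5 | k5
      · left
        intro x hx
        have := k5 x hx
        change Sum.elim (fun i : Fin n => x i.castSucc) (fun _ => x (Fin.last n)) ∘
          (Sum.map (Fin.castLE hk) id : Fin k ⊕ Unit → Fin n ⊕ Unit) ∈ Ψ at this
        rwa [e] at this
      · right
        intro x hx y hy
        apply k5 x hx y
        show Sum.elim (fun i : Fin n => x i.castSucc) y ∘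
          (Sum.map (Fin.castLE hk) id : Fin k ⊕ Unit → Fin n ⊕ Unit) ∈ Ψ
        rw [e]
        exact hy
    · obtain ⟨θ', k1, k2, k3, k4⟩ := triv
      exact ⟨⟨θ', k1, k2, k3⟩, k4, fun h => absurd h hk⟩
  · by_cases hj : j < n
    · obtain ⟨θ1, hsub, k1, k2, k3⟩ := o2 ⟨j, hj⟩ D hD hDU
      have b1 : Bdd S θ1 := by
        obtain ⟨N, hN⟩ := h2
        exact ⟨N, fun x hx => hN x (hsub hx)⟩
      obtain ⟨o3, _⟩ := hOTH L C S hM A U hAU hpt n θ1 k1 b1 k2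
      obtain ⟨θ', l1, l2, l3, l4, _⟩ := o3 Set.univ Set.definable_univ
      refine ⟨⟨θ', l1, l2, l3⟩, fun x hx => hsub (l4 x hx), ?_⟩
      intro h
      rcases k3 with k3 | ⟨a, ha, k3⟩
      · exact Or.inl fun x hx => k3 _ (l4 x hx)
      · exact Or.inr ⟨a, ha, fun x hx => k3 _ (l4 x hx)⟩
    · obtain ⟨θ', k1, k2, k3, k4⟩ := triv
      exact ⟨⟨θ', k1, k2, k3⟩, k4, fun h => absurd h hj⟩

end otw

theorem st_OTW (hOTH : ST_OTH) (hOTB : ST_OTB) : ST_OTW := by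
  intro L C _ _ S hM A U hA hAU hloc hpt
  -- an enumeration of the tasks
  have c1 : ∀ k : ℕ, Countable {Ψ : Set (Fin k ⊕ Unit → C) // A.Definable L Ψ} := fun k =>
    (st_CCNT L C (Fin k ⊕ Unit) A hM.lang hA).to_subtype
  have c2 : Countable {D : Set (Unit → C) // Z0 L D ∧ ∀ y ∈ D, y () ∈ U} := by
    have : {D : Set (Unit → C) | Z0 L D ∧ ∀ y ∈ D, y () ∈ U}.Countable :=
      (st_CCNT L C Unit ∅ hM.lang Set.countable_empty).mono fun D hD => hD.1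
    exact this.to_subtype
  haveI : Countable (OtwTask L A U) := inferInstance
  haveI : Nonempty (OtwTask L A U) := ⟨Sum.inl ⟨0, Set.univ, Set.definable_univ⟩⟩
  obtain ⟨f, hf⟩ := exists_surjective_nat (OtwTask L A U)
  have ht : ∀ (τ : OtwTask L A U) (N : ℕ), ∃ n, N ≤ n ∧ f (Nat.unpair n).1 = τ := by
    intro τ N
    obtain ⟨i, hi⟩ := hf τ
    refine ⟨Nat.pair i N, Nat.right_le_pair i N, ?_⟩
    rw [Nat.unpair_pair]
    exact hi
  -- the recursion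
  choose g hg1 hg2 using fun (n : ℕ) (θ : OtwState L S A n) (τ : OtwTask L A U) =>
    otw_step hOTH hM hAU hpt n θ τ
  have h0 : OtwState L S A 0 := ⟨Set.univ, Set.definable_univ, ⟨0, fun x _ i => i.elim0⟩,
    ⟨fun i => i.elim0, Set.mem_univ _⟩⟩
  let θ : (n : ℕ) → OtwState L S A n := fun n =>
    Nat.rec h0 (fun n θ => g n θ (f (Nat.unpair n).1)) n
  have hθ : ∀ n, θ (n + 1) = g n (θ n) (f (Nat.unpair n).1) := fun n => rfl
  obtain ⟨c, hc⟩ := hOTB L C S hM id (fun n => (θ n).1) monotone_id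
    (fun n => ⟨(θ n).2.1.mono (Set.subset_univ _), (θ n).2.2.1, (θ n).2.2.2⟩) (by
      intro n x hx
      exact hg1 n (θ n) (f (Nat.unpair n).1) x hx)
  have hc' : ∀ n, (fun i : Fin n => c i) ∈ (θ n).1 := hc
  refine ⟨c, ?_, ?_⟩
  · intro k Ψ hΨ hy
    obtain ⟨y, hy⟩ := hy
    obtain ⟨n, hn, hfn⟩ := ht (Sum.inl ⟨k, Ψ, hΨ⟩) k
    have h1 := hg2 n (θ n) (f (Nat.unpair n).1)
    rw [← hθ, hfn] at h1
    rcases h1 hn with h2 | h2
    · exact ⟨n, h2 _ (hc' (n + 1))⟩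
    · exact absurd hy (h2 _ (hc' (n + 1)) y)
  · intro j hj
    obtain ⟨D, hD, _, hjD, hDU⟩ := hloc (c j) hj
    obtain ⟨n, hn, hfn⟩ := ht (Sum.inr ⟨j, D, hD, hDU⟩) (j + 1)
    have h1 := hg2 n (θ n) (f (Nat.unpair n).1)
    rw [← hθ, hfn] at h1
    rcases h1 hn with h2 | ⟨a, ha, h2⟩
    · exact absurd hjD (h2 _ (hc' (n + 1)))
    · have h3 : c j = a := h2 _ (hc' (n + 1))
      rw [h3]
      exact ha

end Pool.Agent.Helper90.MZ
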