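import Pool.Agent.Helper5.MZ.INVA

/-!
# MP_79eb7e_lc, full answer: module SRMIN (types of minimal rank are strongly regular)
-/

set_option autoImplicit false

namespace Pool.Agent.Helper90.MZ

open Pool.Agent.Helper90.TS

section srmin

variable {V G : Type} [Group G] [MulAction G V] {X : Ctx V G}

theorem srmin_def {A : Set V} {κ ι : Type} [Finite κ] [Finite ι] {α : Ordinal.{0}}
    {D : Set (ι → V)} {E : Set (κ ⊕ ι → V)} (hD : X.Ov A D) (h : ¬ X.Rge (Order.succ α) D)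
    (hE : X.Ov A E) : X.Ov A {z : κ → V | X.Rge α (D ∩ {x | Sum.elim z x ∈ E})} := by
  refine ⟨a_def V G X κ ι α D E hD.1 h hE.1, ?_⟩
  intro g hg z hz
  change X.Rge α (D ∩ {x | Sum.elim z x ∈ E}) at hz
  show X.Rge α (D ∩ {x | Sum.elim (g • z) x ∈ E})
  rw [← inva_rge g⁻¹] at hz
  have e : {x | g⁻¹ • x ∈ D ∩ {x | Sum.elim z x ∈ E}} =
      D ∩ {x | Sum.elim (g • z) x ∈ E} := by
    ext x
    show (g⁻¹ • x ∈ D ∧ Sum.elim z (g⁻¹ • x) ∈ E) ↔ (x ∈ D ∧ Sum.elim (g • z) x ∈ E)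
    have h1 : Sum.elim z (g⁻¹ • x) = g⁻¹ • Sum.elim (g • z) x := by
      rw [smul_elim, inv_smul_smul]
    rw [h1, inv_iff hD.2 (inv_mem hg), inv_iff hE.2 (inv_mem hg)]
  rwa [e] at hz

theorem srmin_type {M : Set V} (hM : M.Countable) {α : Ordinal.{0}} {D : Set (Fin 1 → V)}
    (hD : X.Ov M D) (hdg : X.Dg1 α D) {x y : Fin 1 → V} (hx : x ∈ D) (hy : y ∈ D)
    (rx : X.rk M x = α) (ry : X.rk M y = α) : Eqv G M x y := by
  refine st_TYPE V G X M hM (Fin 1) x y ?_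
  intro E hE hxE
  by_contra hyE
  have h1 := (a_rkb V G X (Fin 1) x).2.2.1 M (D ∩ E) (ov_inter hD hE) ⟨hx, hxE⟩
  have h2 := (a_rkb V G X (Fin 1) y).2.2.1 M (D \ E) (ov_diff hD hE) ⟨hy, hyE⟩
  rw [rx] at h1
  rw [ry] at h2
  refine hdg.2.2 (D ∩ E) (D \ E) Set.inter_subset_left Set.sdiff_subset ?_ h1 h2
  rw [Set.disjoint_left]
  rintro z ⟨_, hz⟩ ⟨_, hz'⟩
  exact hz' hz

end srmin

theorem st_SRMIN (hCOH : ST_COH) (hRKZ : ST_RKZ) (hMDLB : ST_MDLB) : ST_SRMIN := by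
  intro V G _ _ X M N D α x hM hN hMN hD hdg hxD hxN hxM hmin
  have hMc : M.Countable := hM.1
  have hle : ∀ y ∈ D, X.rk M y ≤ α := fun y hy =>
    (a_rkb V G X (Fin 1) y).2.1 M D α hD hy hdg.2.1
  have hrk : X.rk M x = α := by
    refine le_antisymm (hle x hxD) ?_
    obtain ⟨E, hE, hxE, h1⟩ := (a_rkb V G X (Fin 1) x).1 M
    exact (h1 α).1 (hmin E hE ⟨x, hxE, hxN, hxM⟩)
  refine ⟨⟨hMc, hD, hxD, ⟨D, hD, hxD, ?_⟩, ?_, ?_⟩, hrk⟩
  · show X.Dg1 (X.rk M x) D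
    rw [hrk]
    exact hdg
  · intro h0
    have h1 := (hRKZ V G X M hMc (Fin 1) x).1 h0
    apply hxM
    rintro _ ⟨i, rfl⟩
    have := h1 i
    rwa [(hMDLB V G X).2.2.1 M hM] at this
  · intro B hB y hy
    change y ∈ D at hy
    have hBc : (M ∪ B).Countable := hMc.union hB
    have hrkB : X.rk (M ∪ B) y ≤ X.rk M y :=
      (a_rkb V G X (Fin 1) y).2.2.2.1 M (M ∪ B) Set.subset_union_left
    by_cases hya : X.rk (M ∪ B) y = α
    · left
      have h1 : X.rk M y = α := le_antisymm (hle y hy) (hya ▸ hrkB)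
      refine ⟨srmin_type hMc hD hdg hxD hy hrk h1, ?_⟩
      show SI X M (Set.range y) B
      rw [← rk_si hMc hB, hya, h1]
    · right
      intro z hz
      obtain ⟨hz1, hz2⟩ := hz
      change Eqv G M x z at hz1
      change SI X M (Set.range z) B at hz2
      show SI X (M ∪ B) (Set.range z) (Set.range y)
      by_contra hcon
      have hylt : X.rk (M ∪ B) y < α := lt_of_le_of_ne (hrkB.trans (hle y hy)) hya
      have hzlt : X.rk (M ∪ B ∪ Set.range y) z < α := by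
        have h1 : X.rk (M ∪ B ∪ Set.range y) z ≠ X.rk (M ∪ B) z := fun h =>
          hcon ((rk_si hBc (Set.countable_range y)).1 h)
        have h2 : X.rk (M ∪ B ∪ Set.range y) z ≤ X.rk (M ∪ B) z :=
          (a_rkb V G X (Fin 1) z).2.2.2.1 _ _ Set.subset_union_left
        have h3 : X.rk (M ∪ B) z ≤ X.rk M z :=
          (a_rkb V G X (Fin 1) z).2.2.2.1 _ _ Set.subset_union_left
        have h4 : X.rk M z = X.rk M x := (a_rkb V G X (Fin 1) x).2.2.2.2.2 M z hz1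
        exact (lt_of_le_of_ne h2 h1).trans_le (by rw [← hrk, ← h4]; exact h3)
      -- the formula `E` for `y`
      obtain ⟨E1, hE1, hyE1, hE1r⟩ := (a_rkb V G X (Fin 1) y).1 (M ∪ B)
      have hE1n : ¬ X.Rge α E1 := fun h => absurd ((hE1r α).1 h) (not_le.2 hylt)
      obtain ⟨m1, a1, E, ha1, hE, hE1e⟩ := st_FSUP V G X (M ∪ B) hBc (Fin 1) E1 hE1
      -- the formula `K` for `z`
      obtain ⟨E2, hE2, hzE2, hE2r⟩ := (a_rkb V G X (Fin 1) z).1 (M ∪ B ∪ Set.range y)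
      have hE2n : ¬ X.Rge α E2 := fun h => absurd ((hE2r α).1 h) (not_le.2 hzlt)
      obtain ⟨E2', hE2', hE2e⟩ := a_fsu2 V G X (M ∪ B) hBc (Fin 1) (Fin 1) y E2 hE2
      obtain ⟨m2, a2, K0, ha2, hK0, hK0e⟩ := st_FSUP V G X (M ∪ B) hBc _ E2' hE2'
      set K : Set ((Fin m2 ⊕ Fin 1) ⊕ Fin 1 → V) :=
        {v | v ∘ (Equiv.sumAssoc (Fin m2) (Fin 1) (Fin 1)).symm ∈ K0} with hKdef
      have hK : X.Ov (∅ : Set V) K := ov_equiv hK0 _
      have hKz : ∀ (u : Fin m2 → V) (v w : Fin 1 → V),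
          Sum.elim (Sum.elim u v) w ∈ K ↔ Sum.elim u (Sum.elim v w) ∈ K0 := by
        intro u v w
        have : (Sum.elim (Sum.elim u v) w) ∘ (Equiv.sumAssoc (Fin m2) (Fin 1) (Fin 1)).symm =
            Sum.elim u (Sum.elim v w) := by
          funext i
          rcases i with i | i | i <;> rfl
        show (Sum.elim (Sum.elim u v) w) ∘ (Equiv.sumAssoc (Fin m2) (Fin 1) (Fin 1)).symm ∈ K0 ↔ _
        rw [this]
      have hE2K : E2 = {w | Sum.elim (Sum.elim a2 y) w ∈ K} := by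
        rw [hE2e]
        ext w
        show Sum.elim y w ∈ E2' ↔ Sum.elim (Sum.elim a2 y) w ∈ K
        rw [hKz, hK0e]
        exact Iff.rfl
      -- the exceptional sets
      have hEM : X.Ov M E := ov_mono X (Set.empty_subset _) hE
      have hKM : X.Ov M K := ov_mono X (Set.empty_subset _) hK
      set R1 : Set (Fin m1 → V) := {z | X.Rge α (D ∩ {x | Sum.elim z x ∈ E})} with hR1
      have hR1o : X.Ov M R1 := srmin_def hD hdg.2.1 hEM
      set R2 : Set (Fin m2 ⊕ Fin 1 → V) := {z | X.Rge α (D ∩ {x | Sum.elim z x ∈ K})} with hR2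
      have hR2o : X.Ov M R2 := srmin_def hD hdg.2.1 hKM
      have ha1R : a1 ∉ R1 := by
        intro h
        refine hE1n ((a_rbas V G X (Fin 1)).1 α _ E1 hE1.1 ?_ h)
        rw [hE1e]
        exact Set.inter_subset_right
      have ha2R : Sum.elim a2 y ∉ R2 := by
        intro h
        refine hE2n ((a_rbas V G X (Fin 1)).1 α _ E2 hE2.1 ?_ h)
        rw [hE2K]
        exact Set.inter_subset_right
      -- the set `W`
      obtain ⟨B0, hB0, hmB0⟩ := ov_sort (X := X)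
        (Sum.elim (Sum.elim (Sum.elim a1 a2) y) z : ((Fin m1 ⊕ Fin m2) ⊕ Fin 1) ⊕ Fin 1 → V)
      have hB0M : X.Ov M B0 := ov_mono X (Set.empty_subset _) hB0
      set τD : Fin 1 → ((Fin m1 ⊕ Fin m2) ⊕ Fin 1) ⊕ Fin 1 := fun i => Sum.inl (Sum.inr i)
      set τE : Fin m1 ⊕ Fin 1 → ((Fin m1 ⊕ Fin m2) ⊕ Fin 1) ⊕ Fin 1 :=
        Sum.elim (fun i => Sum.inl (Sum.inl (Sum.inl i))) (fun i => Sum.inl (Sum.inr i))
      set τK : (Fin m2 ⊕ Fin 1) ⊕ Fin 1 → ((Fin m1 ⊕ Fin m2) ⊕ Fin 1) ⊕ Fin 1 :=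
        Sum.elim (Sum.elim (fun i => Sum.inl (Sum.inl (Sum.inr i)))
          (fun i => Sum.inl (Sum.inr i))) (fun i => Sum.inr i)
      set τ1 : Fin m1 → ((Fin m1 ⊕ Fin m2) ⊕ Fin 1) ⊕ Fin 1 :=
        fun i => Sum.inl (Sum.inl (Sum.inl i))
      set τ2 : Fin m2 ⊕ Fin 1 → ((Fin m1 ⊕ Fin m2) ⊕ Fin 1) ⊕ Fin 1 :=
        Sum.elim (fun i => Sum.inl (Sum.inl (Sum.inr i))) (fun i => Sum.inl (Sum.inr i))
      set W : Set (((Fin m1 ⊕ Fin m2) ⊕ Fin 1) ⊕ Fin 1 → V) :=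
        ((({w | w ∈ B0 ∧ w ∘ τD ∈ D} ∩ {w | w ∈ B0 ∧ w ∘ τE ∈ E}) ∩
          {w | w ∈ B0 ∧ w ∘ τK ∈ K}) \ {w | w ∈ B0 ∧ w ∘ τ1 ∈ R1}) \
            {w | w ∈ B0 ∧ w ∘ τ2 ∈ R2} with hW
      have hWo : X.Ov M W := ov_diff (ov_diff (ov_inter (ov_inter (ov_sub hD hB0M τD)
        (ov_sub hEM hB0M τE)) (ov_sub hKM hB0M τK)) (ov_sub hR1o hB0M τ1)) (ov_sub hR2o hB0M τ2)
      have hWm : ∀ (u : Fin m1 ⊕ Fin m2 → V) (v w : Fin 1 → V),
          Sum.elim (Sum.elim u v) w ∈ W ↔ (Sum.elim (Sum.elim u v) w ∈ B0 ∧ v ∈ D ∧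
            Sum.elim (u ∘ Sum.inl) v ∈ E ∧ Sum.elim (Sum.elim (u ∘ Sum.inr) v) w ∈ K ∧
            u ∘ Sum.inl ∉ R1 ∧ Sum.elim (u ∘ Sum.inr) v ∉ R2) := by
        intro u v w
        have e1 : (Sum.elim (Sum.elim u v) w) ∘ τD = v := rfl
        have e2 : (Sum.elim (Sum.elim u v) w) ∘ τE = Sum.elim (u ∘ Sum.inl) v := by
          funext i
          rcases i with i | i <;> rfl
        have e3 : (Sum.elim (Sum.elim u v) w) ∘ τK = Sum.elim (Sum.elim (u ∘ Sum.inr) v) w := by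
          funext i
          rcases i with (i | i) | i <;> rfl
        have e4 : (Sum.elim (Sum.elim u v) w) ∘ τ1 = u ∘ Sum.inl := rfl
        have e5 : (Sum.elim (Sum.elim u v) w) ∘ τ2 = Sum.elim (u ∘ Sum.inr) v := by
          funext i
          rcases i with i | i <;> rfl
        rw [hW]
        simp only [Set.mem_sdiff, Set.mem_inter_iff, Set.mem_ofPred_eq, e1, e2, e3, e4, e5]
        tauto
      have hmem : Sum.elim (Sum.elim (Sum.elim a1 a2) y) z ∈ W := by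
        rw [hWm]
        refine ⟨hmB0, hy, ?_, ?_, ha1R, ha2R⟩
        · rw [hE1e] at hyE1
          exact hyE1
        · rw [hE2K] at hzE2
          exact hzE2
      -- coheir
      have hT : X.Ov (M ∪ Set.range z) {u : Fin m1 ⊕ Fin m2 → V | ∃ v : Fin 1 → V,
          Sum.elim u v ∈ {w | Sum.elim w z ∈ W}} := ov_ex (ov_secr hWo z)
      have hind : SI X M (M ∪ B) (Set.range z) :=
        (si_add_basel hMc hB (Set.countable_range z)).2
          (si_symm hMc (Set.countable_range z) hB hz2)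
      obtain ⟨u, hu, huM⟩ := hCOH V G X M (M ∪ B) (Set.range z) hM hBc (Set.countable_range z)
        hind (Fin m1 ⊕ Fin m2) _ (Sum.elim a1 a2) hT ⟨y, hmem⟩ (by
          rintro _ ⟨i | i, rfl⟩
          · exact ha1 ⟨i, rfl⟩
          · exact ha2 ⟨i, rfl⟩)
      obtain ⟨v, hv⟩ := hu
      change Sum.elim (Sum.elim u v) z ∈ W at hv
      -- move `z` to `x`
      obtain ⟨h, hh, hhx⟩ := hz1
      have hv' := hWo.2 h⁻¹ (inv_mem hh) _ hv
      rw [smul_elim, smul_elim, fx_smul (inv_mem hh) huM, ← hhx, inv_smul_smul] at hv'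
      -- a point in `N`
      have hF : X.Ov N {y : Fin 1 → V | Sum.elim u y ∈ {w | Sum.elim w x ∈ W}} :=
        ov_sec' (ov_secr' (ov_mono X hMN hWo) hxN) (huM.trans hMN)
      obtain ⟨y3, hy3, hy3N⟩ := hN.2 1 _ hF ⟨_, hv'⟩
      change Sum.elim (Sum.elim u y3) x ∈ W at hy3
      rw [hWm] at hy3
      obtain ⟨_, k1, k2, k3, k4, k5⟩ := hy3
      have hu1 : Set.range (u ∘ Sum.inl) ⊆ M := (Set.range_comp_subset_range _ _).trans huM
      have hu2 : Set.range (u ∘ Sum.inr) ⊆ M := (Set.range_comp_subset_range _ _).trans huM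
      have hy3M : Set.range y3 ⊆ M := by
        by_contra hcon'
        exact k4 (hmin _ (ov_inter hD (ov_sec' hEM hu1)) ⟨y3, ⟨k1, k2⟩, hy3N, hcon'⟩)
      have hu3 : Set.range (Sum.elim (u ∘ Sum.inr) y3) ⊆ M := by
        rintro _ ⟨i | i, rfl⟩
        · exact hu2 ⟨i, rfl⟩
        · exact hy3M ⟨i, rfl⟩
      exact k5 (hmin _ (ov_inter hD (ov_sec' hKM hu3)) ⟨x, ⟨hxD, k3⟩, hxN, hxM⟩)

end Pool.Agent.Helper90.MZ
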