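import Pool.Agent.Helper90.MZ.StmtsA

/-!
# MP_79eb7e_lc, full answer: module SUPU (support, monotonicity)
-/

set_option autoImplicit false

namespace Pool.Agent.Helper90.MZ

open Pool.Agent.Helper90.TS

theorem supu_chain {V : Type} (M : ℕ → Set V) (hM : ∀ n, M n ⊆ M (n + 1)) (F : Set V)
    (hF : F.Finite) (h : F ⊆ ⋃ n, M n) : ∃ n, F ⊆ M n := by
  have hmono : Monotone M := monotone_nat_of_le_succ hM
  induction F, hF using Set.Finite.induction_on with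
  | empty => exact ⟨0, Set.empty_subset _⟩
  | @insert a s _ _ ih =>
    obtain ⟨n, hn⟩ := ih ((Set.subset_insert a s).trans h)
    have ha := h (Set.mem_insert a s)
    rw [Set.mem_iUnion] at ha
    obtain ⟨m, hm⟩ := ha
    refine ⟨max m n, ?_⟩
    intro x hx
    rcases hx with rfl | hx
    · exact hmono (le_max_left m n) hm
    · exact hmono (le_max_right m n) (hn hx)

theorem st_SUPU (hSRFIN : ST_SRFIN) (hNOEQ : ST_NOEQ) (hMDLB : ST_MDLB) : ST_SUPU := by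
  intro V G _ _ X
  obtain ⟨nrefl, nsymm, ntrans⟩ := hNOEQ V G X
  have h1 : ∀ (M M' : Set V) (q : Ty V), M ⊆ M' → Sp X M q → Sp X M' q := by
    rintro M M' q h ⟨p, hp, hpM, hpq⟩
    exact ⟨p, hp, hpM.trans h, hpq⟩
  have h3 : ∀ (M : Set V) (q q' : Ty V), SR X q → SR X q' → NO X q q' → Sp X M q →
      Sp X M q' := by
    rintro M q q' hq hq' h ⟨p, hp, hpM, hpq⟩
    exact ⟨p, hp, hpM, ntrans p q q' hp hq hq' hpq h⟩
  have h6 : ∀ (M : Set V) (q : Ty V), SR X q → Sp X M q → ∃ p, SR X p ∧ p.A ⊆ M ∧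
      p.A.Finite ∧ NO X p q ∧ NO X q p := by
    rintro M q hq ⟨p, hp, hpM, hpq⟩
    obtain ⟨A0, hA0, hfin, h⟩ := hSRFIN V G X p hp
    obtain ⟨k1, k2, _, _, _⟩ := h A0 le_rfl hA0
    have k5 := ntrans _ _ _ k1 hp hq k2 hpq
    exact ⟨⟨A0, p.D, p.z⟩, k1, hA0.trans hpM, hfin, k5, nsymm _ _ k5⟩
  refine ⟨h1, ?_, h3, ?_, ?_, h6, ?_, ?_⟩
  · intro b b' q hbb h M hM hb
    exact h M hM (hbb.trans hb)
  · intro b q q' hq hq' h hs M hM hb
    exact h3 M q q' hq hq' h (hs M hM hb)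
  · intro M q hq h
    exact ⟨q, hq, h, nrefl q hq⟩
  · intro M q hq hM h
    obtain ⟨p, k1, k2, k3, k4, _⟩ := h6 _ q hq h
    obtain ⟨n, hn⟩ := supu_chain M hM p.A k3 k2
    exact ⟨n, p, k1, hn, k4⟩
  · intro b e q hb he h M hM hbM
    refine h M hM (Set.union_subset hbM (he.trans ?_))
    have k1 := (a_aclb V G X b hb).2.2.1 M hbM
    rwa [(hMDLB V G X).2.2.1 M hM] at k1

end Pool.Agent.Helper90.MZ
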